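import Pool.Agent.LE.StmtsB
import Pool.Agent.Helper65_Mob.Fvl
import Pool.Agent.Helper11_Mob.Gzb

/-!
# Module CMG: the limits satisfy the comparison inequalities
-/

set_option autoImplicit false

open MeasureTheory ProbabilityTheory Function

open scoped ENNReal BigOperators

noncomputable section

namespace Pool.Agent.LE.H32

open Pool.Agent.Anderson Pool.Agent.Loc Pool.Agent.Mob Pool.Agent.Helper54.Bal

variable {d : ℕ}

theorem box_mono' (s : Site d) (L : ℕ) : box s L ⊆ box s (L + 1) := by
  intro x hx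
  rw [mem_box] at hx ⊢
  omega

theorem box_one' {s v : Site d} {L : ℕ} (hv : v ∈ box s L) : box v 1 ⊆ box s (L + 1) := by
  intro x hx
  rw [mem_box] at hx hv ⊢
  have := sd_triangle s v x
  omega

/-- the part of the Laplacian outside of a cube -/
theorem lap_out (s : Site d) (L : ℕ) (ψ : Site d → ℂ) (v : Site d) (hv : v ∈ box s L) :
    lap (fun y => if y ∈ box s L then 0 else ψ y) v =
      ∑ b' ∈ box s (L + 1) \ box s L, (hop v b' : ℂ) * ψ b' := by
  rw [lap_eq_sum _ v (box s (L + 1)) (box_one' hv), ← Finset.sum_sdiff (box_mono' s L)]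
  have h1 : ∑ y ∈ box s L, (hop v y : ℂ) * (if y ∈ box s L then 0 else ψ y) = 0 := by
    apply Finset.sum_eq_zero
    intro y hy
    rw [if_pos hy, mul_zero]
  rw [h1, add_zero]
  apply Finset.sum_congr rfl
  intro y hy
  rw [if_neg (Finset.mem_sdiff.1 hy).2]

/-- the resolvent identity between a cube and the infinite volume -/
theorem expand (V : Site d → ℝ) (s : Site d) (L : ℕ) (z : ℂ) (hz : z.im ≠ 0) (x u : Site d)
    (hx : x ∈ box s L) :
    G V z (del u) x = -gz V (box s L) z x u +
      ∑ b ∈ box s L, ∑ b' ∈ box s (L + 1) \ box s L,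
        gz V (box s L) z x b * (hop b b' : ℂ) * G V z (del u) b' := by
  obtain ⟨Λ, hΛ⟩ : ∃ Λ, Λ = box s L := ⟨_, rfl⟩
  rw [← hΛ] at hx ⊢
  have hdet := ((Mob.H11.gzb d V Λ x x).2.1 z hz).1
  obtain ⟨φ, hφ⟩ : ∃ φ : Site d → ℂ, φ = G V z (del u) := ⟨_, rfl⟩
  obtain ⟨b, hb⟩ : ∃ b : Site d → ℂ, b = lap (fun v => if v ∈ Λ then 0 else φ v) := ⟨_, rfl⟩
  have h1 : (z • (1 : Matrix Λ Λ ℂ) - HC V Λ).mulVec (fun v : Λ => φ v) =
      fun w : Λ => -(if (w : Site d) = u then 1 else 0) + b w := by
    funext w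
    rw [Mob.H65.mul_fun]
    have h2 := G_eq (V := V) hz (del u) w
    rw [del_apply, ← hφ] at h2
    have h3 : lap φ w = lap (fun v => if v ∈ Λ then φ v else 0) w + b w := by
      rw [hb, ← lap_add]
      congr 1
      funext v
      by_cases hv : v ∈ Λ
      · rw [if_pos hv, if_pos hv, add_zero]
      · rw [if_neg hv, if_neg hv, zero_add]
    rw [h3] at h2
    linear_combination -h2
  have h2 : (fun v : Λ => φ v) = (z • (1 : Matrix Λ Λ ℂ) - HC V Λ)⁻¹.mulVec
      (fun w : Λ => -(if (w : Site d) = u then 1 else 0) + b w) := by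
    rw [← h1, Matrix.mulVec_mulVec, Matrix.nonsing_inv_mul _ (isUnit_iff_ne_zero.2 hdet),
      Matrix.one_mulVec]
  have h3 := congrFun h2 ⟨x, hx⟩
  have h4 : φ x = -gz V Λ z x u + ∑ v : Λ, gz V Λ z x v * b v := by
    rw [h3]
    simp only [Matrix.mulVec, dotProduct, mul_add, Finset.sum_add_distrib]
    congr 1
    · by_cases hu : u ∈ Λ
      · rw [Finset.sum_eq_single (⟨u, hu⟩ : Λ)]
        · rw [if_pos rfl]
          unfold gz
          rw [dif_pos ⟨hx, hu⟩]
          ring
        · intro v _ hv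
          rw [if_neg]
          · ring
          · intro h
            exact hv (Subtype.ext h)
        · intro h
          exact absurd (Finset.mem_univ _) h
      · have hg : gz V Λ z x u = 0 := by
          unfold gz
          rw [dif_neg fun h => hu h.2]
        rw [hg, neg_zero]
        apply Finset.sum_eq_zero
        intro v _
        rw [if_neg, neg_zero, mul_zero]
        intro h
        exact hu (h ▸ v.2)
    · apply Finset.sum_congr rfl
      intro v _
      unfold gz
      rw [dif_pos ⟨hx, v.2⟩]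
  rw [← hφ, h4]
  congr 1
  rw [Finset.sum_coe_sort Λ (fun v => gz V Λ z x v * b v)]
  apply Finset.sum_congr rfl
  intro v hv
  rw [hb, hΛ, lap_out s L φ v (by rw [← hΛ]; exact hv), Finset.mul_sum]
  apply Finset.sum_congr rfl
  intro b' _
  ring

/-- if the determinant does not vanish at `E`, there is no eigenvalue near `E` -/
theorem exists_noEig (V : Site d → ℝ) (Λ : Finset (Site d)) (E : ℝ) (h : (RM V Λ E).det ≠ 0) :
    ∃ r : ℝ, 0 < r ∧ NoEig V Λ E (2 * r) := by
  have hc : Continuous fun F : ℝ => (RM V Λ F).det := by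
    apply Continuous.matrix_det
    unfold RM
    exact (continuous_id.smul continuous_const).sub continuous_const
  have hev := hc.continuousAt.eventually_ne h
  obtain ⟨δ, hδ, hδ2⟩ := Metric.eventually_nhds_iff.1 hev
  refine ⟨δ / 4, by positivity, ?_⟩
  intro F hF
  apply hδ2
  rw [Real.dist_eq]
  linarith

/-- convergence of the finite volume resolvents -/
theorem tendsto_gz (V : Site d → ℝ) (Λ : Finset (Site d)) (E : ℝ) (h : (RM V Λ E).det ≠ 0)
    {e : ℕ → ℝ} (he : Filter.Tendsto e Filter.atTop (nhds 0)) (x y : Site d) :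
    Filter.Tendsto (fun k => ‖gz V Λ (zz (e k) E) x y‖) Filter.atTop (nhds |gr V Λ E x y|) := by
  obtain ⟨r, hr, hN⟩ := exists_noEig V Λ E h
  have h1 := Mob.H11.gzb d V Λ x y
  have h2 := (h1.2.2 E r hr hN (E : ℂ) (by simp; exact hr.le)).2.2.continuousAt
  have h3 : Filter.Tendsto (fun k => zz (e k) E) Filter.atTop (nhds (E : ℂ)) := by
    have h4 : Filter.Tendsto (fun k => (E : ℂ) + (e k : ℂ) * Complex.I) Filter.atTop
        (nhds ((E : ℂ) + ((0 : ℝ) : ℂ) * Complex.I)) := by
      refine Filter.Tendsto.const_add _ (Filter.Tendsto.mul_const _ ?_)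
      exact (Complex.continuous_ofReal.tendsto 0).comp he
    rw [Complex.ofReal_zero, zero_mul, add_zero] at h4
    exact h4
  have h5 := (h2.tendsto.comp h3).norm
  have h6 : ‖gz V Λ (E : ℂ) x y‖ = |gr V Λ E x y| := by
    rw [h1.1 E, Complex.norm_real, Real.norm_eq_abs]
  rw [h6] at h5
  exact h5

theorem norm_hop (b b' : Site d) : ‖(hop b b' : ℂ)‖ = hop b b' := by
  rw [Complex.norm_real, Real.norm_eq_abs, abs_of_nonneg (hop_nonneg b b')]

theorem cmg : CmgStmt := by
  intro d σ E e g _ he he0 hlim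
  have hz : ∀ k, (zz (e k) E).im ≠ 0 := by
    intro k
    have : (zz (e k) E).im = e k := by
      unfold zz
      simp
    rw [this]
    exact (he k).ne'
  constructor
  · filter_upwards [hlim] with V hV s L hdet u
    have hs : s ∈ box s L := by
      rw [mem_box, sd_self]
      exact Nat.zero_le _
    have hle : ∀ k, ‖G V (zz (e k) E) (del s) u‖ ≤ ‖gz V (box s L) (zz (e k) E) s u‖ +
        ∑ b ∈ box s L, ∑ b' ∈ box s (L + 1) \ box s L,
          ‖gz V (box s L) (zz (e k) E) s b‖ * hop b b' * ‖G V (zz (e k) E) (del b') u‖ := by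
      intro k
      rw [← QE.G_symm (hz k) s u, expand V s L (zz (e k) E) (hz k) s u hs]
      refine (norm_add_le _ _).trans ?_
      rw [norm_neg]
      gcongr
      refine (norm_sum_le _ _).trans (Finset.sum_le_sum fun b _ => ?_)
      refine (norm_sum_le _ _).trans (Finset.sum_le_sum fun b' _ => ?_)
      rw [norm_mul, norm_mul, norm_hop, QE.G_symm (hz k) b' u]
    refine le_of_tendsto_of_tendsto' (hV s u).norm ?_ hle
    refine (tendsto_gz V _ E hdet he0 s u).add ?_
    refine tendsto_finsetSum _ fun b _ => tendsto_finsetSum _ fun b' _ => ?_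
    exact ((tendsto_gz V _ E hdet he0 s b).mul_const _).mul (hV b' u).norm
  · filter_upwards [hlim] with V hV s L hdet u hu
    have hle : ∀ k, ‖gz V (box s L) (zz (e k) E) s u‖ ≤ ‖G V (zz (e k) E) (del s) u‖ +
        ∑ b ∈ box s L, ∑ b' ∈ box s (L + 1) \ box s L,
          ‖G V (zz (e k) E) (del s) b'‖ * hop b b' * ‖gz V (box s L) (zz (e k) E) b u‖ := by
      intro k
      have h1 := expand V s L (zz (e k) E) (hz k) u s hu
      have h2 : gz V (box s L) (zz (e k) E) s u = -G V (zz (e k) E) (del s) u +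
          ∑ b ∈ box s L, ∑ b' ∈ box s (L + 1) \ box s L,
            gz V (box s L) (zz (e k) E) u b * (hop b b' : ℂ) * G V (zz (e k) E) (del s) b' := by
        rw [Mob.H65.gz_symm, h1]
        ring
      rw [h2]
      refine (norm_add_le _ _).trans ?_
      rw [norm_neg]
      gcongr
      refine (norm_sum_le _ _).trans (Finset.sum_le_sum fun b _ => ?_)
      refine (norm_sum_le _ _).trans (Finset.sum_le_sum fun b' _ => ?_)
      rw [norm_mul, norm_mul, norm_hop, Mob.H65.gz_symm V (box s L) _ u b]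
      apply le_of_eq
      ring
    refine le_of_tendsto_of_tendsto' (tendsto_gz V _ E hdet he0 s u) ?_ hle
    refine (hV s u).norm.add ?_
    refine tendsto_finsetSum _ fun b _ => tendsto_finsetSum _ fun b' _ => ?_
    exact ((hV s b').norm.mul_const _).mul (tendsto_gz V _ E hdet he0 b u)

end Pool.Agent.LE.H32
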