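import Pool.Agent.LE.StmtsB

/-!
# Module LIM: the a priori properties pass to the limit
-/

set_option autoImplicit false

open MeasureTheory ProbabilityTheory Function Filter

open scoped ENNReal BigOperators Topology

noncomputable section

namespace Pool.Agent.LE.H32

open Pool.Agent.Anderson Pool.Agent.Loc Pool.Agent.Mob Pool.Agent.Helper54.Bal

section generic

variable {Ω : Type*} [MeasurableSpace Ω] (P : Measure Ω)

/-- Fatou's lemma, for the lower integrals -/
theorem fatou_l {c : ℝ≥0∞} {f : ℕ → Ω → ℝ} (hm : ∀ k, Measurable (f k))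
    (hb : ∀ k, ∫⁻ V, ENNReal.ofReal (f k V) ∂P ≤ c) :
    ∫⁻ V, liminf (fun k => ENNReal.ofReal (f k V)) atTop ∂P ≤ c := by
  refine (lintegral_liminf_le fun k => (hm k).ennreal_ofReal).trans ?_
  exact liminf_le_of_frequently_le' (Eventually.of_forall hb).frequently

/-- Fatou's lemma -/
theorem fatou {c : ℝ} {f : ℕ → Ω → ℝ} {f₀ : Ω → ℝ} (hm : ∀ k, Measurable (f k))
    (h0 : ∀ k V, 0 ≤ f k V) (hi : ∀ k, Integrable (f k) P) (hb : ∀ k, ∫ V, f k V ∂P ≤ c)
    (hm0 : Measurable f₀) (h00 : ∀ V, 0 ≤ f₀ V)
    (hlim : ∀ᵐ V ∂P, Tendsto (fun k => f k V) atTop (𝓝 (f₀ V))) :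
    Integrable f₀ P ∧ ∫ V, f₀ V ∂P ≤ c := by
  have hc : 0 ≤ c := (integral_nonneg (h0 0)).trans (hb 0)
  have h1 : ∫⁻ V, ENNReal.ofReal (f₀ V) ∂P ≤ ENNReal.ofReal c := by
    have h2 : ∫⁻ V, ENNReal.ofReal (f₀ V) ∂P =
        ∫⁻ V, liminf (fun k => ENNReal.ofReal (f k V)) atTop ∂P := by
      apply lintegral_congr_ae
      filter_upwards [hlim] with V hV
      exact ((ENNReal.continuous_ofReal.tendsto _).comp hV).liminf_eq.symm
    rw [h2]
    apply fatou_l P hm
    intro k
    rw [← ofReal_integral_eq_lintegral_ofReal (hi k) (Eventually.of_forall (h0 k))]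
    exact ENNReal.ofReal_le_ofReal (hb k)
  constructor
  · rw [← lintegral_ofReal_ne_top_iff_integrable hm0.aestronglyMeasurable
      (Eventually.of_forall h00)]
    exact (h1.trans_lt ENNReal.ofReal_lt_top).ne
  · rw [integral_eq_lintegral_of_nonneg_ae (Eventually.of_forall h00) hm0.aestronglyMeasurable]
    exact ENNReal.toReal_le_of_le_ofReal hc h1

/-- an event which is eventually contained in events of small probability -/
theorem meas_le {c : ℝ≥0∞} {A : Set Ω} {B : ℕ → Set Ω} (hB : ∀ k, P (B k) ≤ c)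
    (h : ∀ᵐ V ∂P, V ∈ A → ∀ᶠ k in atTop, V ∈ B k) : P A ≤ c := by
  have h1 : P A ≤ P (⋃ n, ⋂ k ∈ Set.Ici n, B k) := by
    apply measure_mono_ae
    filter_upwards [h] with V hV hA
    obtain ⟨n, hn⟩ := eventually_atTop.1 (hV hA)
    exact Set.mem_iUnion.2 ⟨n, Set.mem_iInter₂.2 fun k hk => hn k hk⟩
  refine h1.trans ?_
  have hmono : Monotone fun n => ⋂ k ∈ Set.Ici n, B k := by
    intro n m hnm V hV
    rw [Set.mem_iInter₂] at hV ⊢
    intro k hk
    exact hV k (Set.mem_Ici.2 (hnm.trans (Set.mem_Ici.1 hk)))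
  rw [hmono.measure_iUnion]
  apply iSup_le
  intro n
  exact (measure_mono (Set.biInter_subset_of_mem (Set.mem_Ici.2 le_rfl))).trans (hB n)

end generic

theorem max_sq_le (a : ℝ) : (max 0 a) ^ 2 ≤ a ^ 2 := by
  rcases le_total 0 a with h | h
  · rw [max_eq_right h]
  · rw [max_eq_left h, zero_pow two_ne_zero]
    exact sq_nonneg a

theorem lim : LimStmt := by
  intro d P _ C h h₀ hP hC hk hm hnn hlim
  have hmlog : ∀ k x y, Measurable fun V => Real.log (h k V x y) := fun k x y =>
    Real.measurable_log.comp ((hk k).meas x y)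
  have hmlog0 : ∀ x y, Measurable fun V => Real.log (h₀ V x y) := fun x y =>
    Real.measurable_log.comp (hm x y)
  have hpos : ∀ᵐ V ∂P, ∀ x y, 0 < h₀ V x y := by
    have h1 : ∀ x y, ∀ᵐ V ∂P,
        liminf (fun k => ENNReal.ofReal (Real.log (h k V x y) ^ 2)) atTop < ∞ := by
      intro x y
      apply ae_lt_top
      · exact Measurable.liminf fun k => ((hmlog k x y).pow_const 2).ennreal_ofReal
      · have h2 := fatou_l P (c := ENNReal.ofReal (C * ((sd x y : ℝ) + 1) ^ 2))
          (f := fun k V => Real.log (h k V x y) ^ 2) (fun k => (hmlog k x y).pow_const 2) ?_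
        · exact (h2.trans_lt ENNReal.ofReal_lt_top).ne
        · intro k
          rw [← ofReal_integral_eq_lintegral_ofReal ((hk k).sq x y).1
            (Eventually.of_forall fun V => sq_nonneg _)]
          exact ENNReal.ofReal_le_ofReal ((hk k).sq x y).2
    have h2 : ∀ᵐ V ∂P, ∀ k x y, 0 < h k V x y := ae_all_iff.2 fun k => (hk k).pos
    have h3 : ∀ᵐ V ∂P, ∀ x y,
        liminf (fun k => ENNReal.ofReal (Real.log (h k V x y) ^ 2)) atTop < ∞ := by
      rw [ae_all_iff]
      intro x
      rw [ae_all_iff]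
      exact h1 x
    filter_upwards [h2, h3, hlim] with V hV1 hV2 hV3 x y
    rcases (hnn V x y).lt_or_eq with h4 | h4
    · exact h4
    · exfalso
      have h5 := hV3 x y
      rw [← h4] at h5
      have h6 : Tendsto (fun k => h k V x y) atTop (𝓝[>] 0) :=
        tendsto_nhdsWithin_iff.2 ⟨h5, Eventually.of_forall fun k => hV1 k x y⟩
      have h7 : Tendsto (fun k => Real.log (h k V x y)) atTop atBot :=
        Real.tendsto_log_nhdsGT_zero.comp h6
      have h8 : Tendsto (fun k => Real.log (h k V x y) ^ 2) atTop atTop := by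
        have h9 := (tendsto_pow_atTop two_ne_zero).comp (tendsto_abs_atBot_atTop.comp h7)
        refine h9.congr fun k => ?_
        simp only [Function.comp_apply, sq_abs]
      have h9 := (ENNReal.tendsto_ofReal_atTop.comp h8).liminf_eq
      have h10 := hV2 x y
      rw [show (fun k => ENNReal.ofReal (Real.log (h k V x y) ^ 2)) =
        ENNReal.ofReal ∘ fun k => Real.log (h k V x y) ^ 2 from rfl, h9] at h10
      exact lt_irrefl _ h10
  have hllog : ∀ᵐ V ∂P, ∀ x y, Tendsto (fun k => Real.log (h k V x y)) atTop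
      (𝓝 (Real.log (h₀ V x y))) := by
    filter_upwards [hpos, hlim] with V h1 h2 x y
    exact (h2 x y).log (h1 x y).ne'
  have hint : ∀ k x y, Integrable (fun V => Real.log (h k V x y) ^ 2) P := fun k x y =>
    ((hk k).sq x y).1
  refine ⟨hm, hnn, hpos, ?_, ?_, ?_, ?_, ?_, ?_, ?_, ?_⟩
  · have h2 : ∀ᵐ V ∂P, ∀ k x y, h k V x y = h k V y x := ae_all_iff.2 fun k => (hk k).symm
    filter_upwards [h2, hlim] with V hV1 hV2 x y
    refine tendsto_nhds_unique (hV2 x y) ?_
    refine (hV2 y x).congr fun k => ?_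
    exact hV1 k y x
  · intro a
    have h2 : ∀ᵐ V ∂P, ∀ k x y, h k (tau a V) x y = h k V (x + a) (y + a) :=
      ae_all_iff.2 fun k => (hk k).stat a
    have h3 := (hP a).quasiMeasurePreserving.ae hlim
    filter_upwards [h2, h3, hlim] with V hV1 hV2 hV3 x y
    refine tendsto_nhds_unique (hV2 x y) ?_
    refine (hV3 (x + a) (y + a)).congr fun k => ?_
    exact (hV1 k x y).symm
  · intro x y t ht
    refine meas_le P (fun k => (hk k).up x y t ht) ?_
    filter_upwards [hlim] with V hV hA
    exact (hV x y).eventually_const_lt hA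
  · intro x u y t ht
    refine meas_le P (fun k => (hk k).one x u y t ht) ?_
    filter_upwards [hlim] with V hV hA
    exact ((hV x y).const_mul t).eventually_lt ((hV x u).mul (hV u y)) hA
  · intro x y
    refine fatou P (f := fun k V => Real.log (h k V x y) ^ 2)
      (fun k => (hmlog k x y).pow_const 2) (fun k V => sq_nonneg _) (fun k => hint k x y)
      (fun k => ((hk k).sq x y).2) ((hmlog0 x y).pow_const 2) (fun V => sq_nonneg _) ?_
    filter_upwards [hllog] with V hV
    exact (hV x y).pow 2
  · intro x y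
    refine (fatou P (f := fun k V => (max 0 (Real.log (h k V x y))) ^ 2)
      (fun k => (measurable_const.max (hmlog k x y)).pow_const 2) (fun k V => sq_nonneg _)
      (fun k => ?_) (fun k => (hk k).neg x y) ((measurable_const.max (hmlog0 x y)).pow_const 2)
      (fun V => sq_nonneg _) ?_).2
    · refine (hint k x y).mono ((measurable_const.max (hmlog k x y)).pow_const
        2).aestronglyMeasurable (Eventually.of_forall fun V => ?_)
      rw [Real.norm_eq_abs, Real.norm_eq_abs, abs_of_nonneg (sq_nonneg _),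
        abs_of_nonneg (sq_nonneg _)]
      exact max_sq_le _
    · filter_upwards [hllog] with V hV
      exact (tendsto_const_nhds.max (hV x y)).pow 2
  · intro x u y
    have hms : ∀ k, Measurable fun V =>
        (max 0 (Real.log (h k V x u) + Real.log (h k V u y) - Real.log (h k V x y))) ^ 2 :=
      fun k => (measurable_const.max (((hmlog k x u).add (hmlog k u y)).sub
        (hmlog k x y))).pow_const 2
    refine (fatou P (f := fun k V =>
      (max 0 (Real.log (h k V x u) + Real.log (h k V u y) - Real.log (h k V x y))) ^ 2)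
      hms (fun k V => sq_nonneg _)
      (fun k => ?_) (fun k => (hk k).tri x u y) ((measurable_const.max
        (((hmlog0 x u).add (hmlog0 u y)).sub (hmlog0 x y))).pow_const 2)
      (fun V => sq_nonneg _) ?_).2
    · have h1 : Integrable (fun V => 3 * (Real.log (h k V x u) ^ 2 + Real.log (h k V u y) ^ 2 +
          Real.log (h k V x y) ^ 2)) P :=
        (((hint k x u).add (hint k u y)).add (hint k x y)).const_mul 3
      refine h1.mono (hms k).aestronglyMeasurable (Eventually.of_forall fun V => ?_)
      rw [Real.norm_eq_abs, Real.norm_eq_abs, abs_of_nonneg (sq_nonneg _),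
        abs_of_nonneg (by positivity)]
      refine (max_sq_le _).trans ?_
      nlinarith [sq_nonneg (Real.log (h k V x u) - Real.log (h k V u y)),
        sq_nonneg (Real.log (h k V x u) + Real.log (h k V x y)),
        sq_nonneg (Real.log (h k V u y) + Real.log (h k V x y))]
    · filter_upwards [hllog] with V hV
      exact (tendsto_const_nhds.max (((hV x u).add (hV u y)).sub (hV x y))).pow 2
  · intro x r t hr ht
    refine meas_le P (fun k => (hk k).chn x r t hr ht) ?_
    filter_upwards [hlim] with V hV hA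
    obtain ⟨y, hy, hlt⟩ := hA
    filter_upwards [(hV x y).eventually_lt_const hlt] with k hk'
    exact ⟨y, hy, hk'⟩

end Pool.Agent.LE.H32
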